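import Pool.Agent.H255R3.AR.Main

/-!
# Alternating reachability with few pairwise non-adjacent positions of each player

Deciding who wins a reachability game (alternating graph accessibility) is complete for `P`. We show
that the winner is defined by a first-order formula, without order and without recursion, on all
finite game graphs in which the positions of each player contain no `k + 1` pairwise non-adjacent
vertices; arcs between positions of different players are arbitrary. First-order queries are
computable in logarithmic space (even in `AC⁰`).

Proof. Let `A` be the set of won positions and `R` its complement. The existential positions in `R`
are closed under arcs to existential positions, and the universal positions in `A` other than the
target are closed under arcs to such positions. By a theorem of Chvatal and Lovasz every digraph has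
an independent set from which all vertices are reachable in at most two steps, so both sets are
unions of at most `k` balls of radius two (inside the positions of the player). Hence a position is
lost if and only if at most `2 k` vertices exist whose balls determine a set containing the position
but not the target which the existential player cannot leave; this is first-order.
-/

set_option autoImplicit false

namespace Pool.Agent.Results.MP_4e849b_lc.AlternatingReachability

open Pool.Agent.H255R3.AR

/-- For every `k` there is a first-order formula `φ(v, t)` over the arc relation `E` and the set `U`
of universal positions which holds at all won positions in all games and which holds exactly at
the won positions in all finite games in which every independent set of existential positions and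
every independent set of universal positions different from the target has at most `k`
elements. -/
theorem result (k : ℕ) : ∃ φ : Fo 2,
    (∀ (V : Type) (E : V → V → Prop) (U : V → Prop) (v t : V), Win E U t v →
      φ.Holds E U ![v, t]) ∧
    ∀ (V : Type) [Finite V] (E : V → V → Prop) (U : V → Prop) (t : V),
      IndepLe E (fun w => ¬ U w) k → IndepLe E (fun w => U w ∧ w ≠ t) k →
      ∀ v : V, φ.Holds E U ![v, t] ↔ Win E U t v :=
  main k

end Pool.Agent.Results.MP_4e849b_lc.AlternatingReachability
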