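import Pool.Agent.H538R4.SP.Final
import Pool.Agent.H538R4.SP.Sat

/-!
# The solvable path problem needs exponentially large branching programs in linear time

The solvable path problem for path systems is complete for `P` (Cook), so `P = L` if and only if it
can be solved in logarithmic space, and `P = NL` if and only if this holds for nondeterministic
logarithmic space.  Branching programs with `2 ^ s` nodes are a non-uniform model of space `s`.  We
prove bounds `2 ^ Ω(M)` for the number of nodes of the branching programs for path systems given by
`M` records, if some `n = ⌊M / D⌋` of the bits are not read too often, where all the other bits may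
be read without any restriction:

* for nondeterministic programs, if on the accepting computations at most `n / D` of the `n` bits
  are read more than once, or if these bits are read at most `n + n / D` times altogether;
* for randomised programs with one-sided error, if the `n` bits are read at most `k` times on
  average, for every constant `k`.

The deterministic and nondeterministic bounds are `finalB` and `finalN` of the starting file
`Pool/Agent/H538R4/SP/Final.lean` (by the helpers named in that development), which had not been
handed in; the lower bound for evaluating random CNF formulas behind them is in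
`Pool/Agent/H554R2/`.
-/

set_option autoImplicit false

namespace Pool.Agent.Results.MP_4e849b_lc.SolvablePathPrograms

open Pool.Agent.H554R2.Sem Pool.Agent.H554R2.Coin Pool.Agent.H554R2.Cnf Pool.Agent.H538R4.SP

/-- A path system is given by `M` records of five names of nodes (words of `ℓ + 1` bits): the
nodes `x, y, z` of a triple, a source node and a terminal node. A node is admissible if it is a
terminal node or the node `x` of a triple `(x, y, z)` with admissible `y` and `z`; `Solvable w`
says that some source node is admissible for the path system with the bits `w`.

For every `k` there is a constant `D` such that for all `n`, `M`, `ℓ` with `D n ≤ M` and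
`D n ≤ 2 ^ ℓ` and for any `n` of the records (`a`) the bits other than the first bits of the heads
of the triples of these records can be given values `b` such that, `x` being the sequence of the
remaining `n` bits:

1. a nondeterministic branching program which accepts only solvable path systems and which accepts
at least a fraction `2 ^ (- ⌊n / D⌋)` of the solvable ones by a computation on which at most
`⌊n / D⌋` of the `n` bits are queried more than once or at most `n + ⌊n / D⌋` queries to these `n`
bits are made, has at least `2 ^ ⌊n / D⌋` nodes;

and, for another choice `b'` of the other bits,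

2. for every randomised branching program, i.e. every finite family `U r` of deterministic branching
programs: if no `U r` outputs `true` on an unsolvable path system of the family, and if for every
solvable one at least a `2 ^ (- ⌊n / D⌋)` fraction of the `U r` outputs `true` after at most `k n`
queries to the `n` bits, then some `U r` has at least `2 ^ ⌊n / D⌋` nodes. -/
theorem result (k : ℕ) : ∃ D : ℕ, 0 < D ∧ ∀ (n M ℓ : ℕ) (a : Fin n ↪ Fin M), D * n ≤ M →
    D * n ≤ 2 ^ ℓ →
    (∃ b : SPBits M ℓ → Bool, ∀ P : NBP (SPBits M ℓ),
      (∀ (x : Pt n) l, P.Accepting (plug (fun i => headBit (a i)) b x) l →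
        Solvable (plug (fun i => headBit (a i)) b x)) →
      Nat.card {x : Pt n // Solvable (plug (fun i => headBit (a i)) b x)} ≤ 2 ^ (n / D) *
        Nat.card {x : Pt n // ∃ l, P.Accepting (plug (fun i => headBit (a i)) b x) l ∧
          FewRereads (fun i => headBit (a i)) (n / D) P l} →
      2 ^ (n / D) ≤ Fintype.card P.State) ∧
    (∃ b' : SPBits M ℓ → Bool, ∀ (R : Type) [Fintype R] [Nonempty R]
      (U : R → BP (SPBits M ℓ) Bool),
      (∀ r (x : Pt n) L, (U r).Comp (plug (fun i => headBit (a i)) b' x) L true →
        Solvable (plug (fun i => headBit (a i)) b' x)) →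
      (∀ x : Pt n, Solvable (plug (fun i => headBit (a i)) b' x) → Nat.card R ≤ 2 ^ (n / D) *
        Nat.card {r // ∃ L, (U r).Comp (plug (fun i => headBit (a i)) b' x) L true ∧
          ∑ i, L.count (headBit (a i)) ≤ k * n}) →
      ∃ r, 2 ^ (n / D) ≤ Fintype.card (U r).State) := by
  obtain ⟨D1, hD1, h1⟩ := finalN
  obtain ⟨D2, hD2, h2⟩ := finalB k
  refine ⟨D1 + D2, by omega, fun n M ℓ a hM hℓ => ⟨?_, ?_⟩⟩
  · obtain ⟨b, hb⟩ := h1 n M ℓ a (le_trans (Nat.mul_le_mul_right _ (by omega)) hM)
      (le_trans (Nat.mul_le_mul_right _ (by omega)) hℓ)
    have hq : n / (D1 + D2) ≤ n / D1 := Nat.div_le_div_left (by omega) hD1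
    refine ⟨b, fun P hP hc => ?_⟩
    refine le_trans (Nat.pow_le_pow_right (by norm_num) hq) (hb P hP ?_)
    refine hc.trans (Nat.mul_le_mul (Nat.pow_le_pow_right (by norm_num) hq) ?_)
    refine Nat.card_le_card_of_injective
      (fun x : {x : Pt n // ∃ l, P.Accepting (plug (fun i => headBit (a i)) b x) l ∧
          FewRereads (fun i => headBit (a i)) (n / (D1 + D2)) P l} =>
        (⟨x.1, ?_⟩ : {x : Pt n // ∃ l, P.Accepting (plug (fun i => headBit (a i)) b x) l ∧
          FewRereads (fun i => headBit (a i)) (n / D1) P l})) ?_
    · obtain ⟨x, l, hl, hf⟩ := x
      refine ⟨l, hl, ?_⟩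
      rcases hf with hf | hf
      · exact Or.inl (hf.trans hq)
      · exact Or.inr (hf.trans (by omega))
    · rintro ⟨x, _⟩ ⟨y, _⟩ h
      simpa using h
  · obtain ⟨b, hb⟩ := h2 n M ℓ a (le_trans (Nat.mul_le_mul_right _ (by omega)) hM)
      (le_trans (Nat.mul_le_mul_right _ (by omega)) hℓ)
    have hq : n / (D1 + D2) ≤ n / D2 := Nat.div_le_div_left (by omega) hD2
    refine ⟨b, fun R _ _ U hU hl => ?_⟩
    obtain ⟨r, hr⟩ := average
      (fun x : Pt n => Solvable (plug (fun i => headBit (a i)) b x))
      (fun r (x : Pt n) => ∃ L, (U r).Comp (plug (fun i => headBit (a i)) b x) L true ∧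
          ∑ i, L.count (headBit (a i)) ≤ k * n) (n / (D1 + D2)) hl
    exact ⟨r, le_trans (Nat.pow_le_pow_right (by norm_num) hq)
      (hb (U r) (hU r) (hr.trans (Nat.mul_le_mul_right _
        (Nat.pow_le_pow_right (by norm_num) hq))))⟩

end Pool.Agent.Results.MP_4e849b_lc.SolvablePathPrograms
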